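import Mathlib

set_option autoImplicit false

namespace Pool.Agent.Results.MP_5790d7_co.Counter

/-- `A ≤ B`: the chain `A` embeds in the chain `B`. -/
def Emb (A B : Type) [LinearOrder A] [LinearOrder B] : Prop := Nonempty (A ↪o B)

/-- `A < B`: `A` embeds in `B` and `B` does not embed in `A`. -/
def Lt (A B : Type) [LinearOrder A] [LinearOrder B] : Prop := Emb A B ∧ ¬ Emb B A

theorem not_emb_fin (B : Type) [LinearOrder B] [Finite B] : ¬ Emb (WithBot ℕᵒᵈ) B := by
  rintro ⟨f⟩
  have : Finite (WithBot ℕᵒᵈ) := Finite.of_injective f f.injective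
  have h2 : Finite ℕᵒᵈ := Finite.of_injective _ (WithBot.coe_injective (α := ℕᵒᵈ))
  exact not_finite ℕᵒᵈ

theorem result : ∃ (A : Type) (_ : LinearOrder A), Countable A ∧
    (∀ X : Set A, IsLowerSet X → Lt X A → Lt (X ⊕ₗ X) A) ∧
    ∃ B : Set A, IsLowerSet B ∧ ¬ Emb A B ∧ ¬ Emb A (Bᶜ : Set A) := by
  refine ⟨WithBot ℕᵒᵈ, inferInstance, inferInstanceAs (Countable (Option ℕ)), ?_,
    {⊥}, ?_, not_emb_fin _, ?_⟩
  · intro X hX hlt
    have h1 : ∀ x ∈ X, x = ⊥ := by
      intro x hx
      induction x using WithBot.recBotCoe with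
      | bot => rfl
      | coe n =>
        exfalso
        apply hlt.2
        have hs : StrictMono (fun k : ℕᵒᵈ => OrderDual.toDual (OrderDual.ofDual k + OrderDual.ofDual n)) := by
          intro a b hab
          have : OrderDual.ofDual b < OrderDual.ofDual a := hab
          exact OrderDual.toDual_lt_toDual.2 (by omega)
        refine ⟨OrderEmbedding.ofStrictMono (fun a => ⟨WithBot.map
          (fun k : ℕᵒᵈ => OrderDual.toDual (OrderDual.ofDual k + OrderDual.ofDual n)) a, hX ?_ hx⟩)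
          (fun a b hab => hs.withBot_map hab)⟩
        induction a using WithBot.recBotCoe with
        | bot => exact bot_le
        | coe k =>
          show (WithBot.map _ (k : WithBot ℕᵒᵈ)) ≤ _
          rw [WithBot.map_coe, WithBot.coe_le_coe]
          exact Nat.le_add_left (OrderDual.ofDual n) (OrderDual.ofDual k)
    have hsub : Subsingleton X := ⟨fun a b => Subtype.ext ((h1 _ a.2).trans (h1 _ b.2).symm)⟩
    have hfin : Finite (X ⊕ₗ X) := inferInstanceAs (Finite (X ⊕ X))
    refine ⟨⟨OrderEmbedding.ofStrictMono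
      (fun z => Sum.elim (fun _ => ⊥) (fun _ => ((OrderDual.toDual 0 : ℕᵒᵈ) : WithBot ℕᵒᵈ)) (ofLex z)) ?_⟩,
      not_emb_fin _⟩
    rintro (a | a) (b | b) hab
    · exact absurd (Subsingleton.elim a b) (Sum.Lex.inl_lt_inl_iff.1 hab).ne
    · exact WithBot.bot_lt_coe _
    · exact absurd hab Sum.Lex.not_inr_lt_inl
    · exact absurd (Subsingleton.elim a b) (Sum.Lex.inr_lt_inr_iff.1 hab).ne
  · intro a b hab ha
    rw [Set.mem_singleton_iff] at ha ⊢
    exact le_bot_iff.1 (ha ▸ hab)
  · rintro ⟨f⟩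
    obtain ⟨n, hn⟩ := WithBot.ne_bot_iff_exists.1 (f ⊥).2
    have hfin : (Set.Ici (n : WithBot ℕᵒᵈ)).Finite := by
      refine ((Set.finite_Iic (OrderDual.ofDual n)).image
        (fun k => ((OrderDual.toDual k : ℕᵒᵈ) : WithBot ℕᵒᵈ))).subset ?_
      intro x hx
      induction x using WithBot.recBotCoe with
      | bot => exact absurd hx (by simp)
      | coe k => exact ⟨OrderDual.ofDual k, WithBot.coe_le_coe.1 hx, rfl⟩
    have := hfin.to_subtype
    refine not_emb_fin (Set.Ici (n : WithBot ℕᵒᵈ)) ⟨OrderEmbedding.ofStrictMono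
      (fun a => ⟨(f a).1, ?_⟩) (fun a b hab => f.strictMono hab)⟩
    rw [hn]
    exact f.monotone bot_le

end Pool.Agent.Results.MP_5790d7_co.Counter
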